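import Pool.Agent.JC3.Main

/-!
James's conjecture fails in quantum characteristic 3: n = 30, p = 11, n < 3p.
-/

set_option autoImplicit false

namespace Pool.Agent.Results.MP_36c429_al.JamesFailsE3

open Pool.Agent.JC3

/-- the partition (6,4,2,2,2,1^14) of 30 -/
def kappa : List ℕ := [6, 4, 2, 2, 2, 1, 1, 1, 1, 1, 1, 1, 1, 1, 1, 1, 1, 1, 1]

/-- the composition length of the Specht module labelled by the partition κ of n -/
noncomputable def spechtLength {A : Type} [CommRing A] (q : A) (n : ℕ) (κ : List ℕ) : ℕ∞ :=
  Module.length (Hecke q n) (Specht q n κ)

/-- The composition length of the Specht module of the Hecke algebra H_30 labelled by the partition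
(6,4,2,2,2,1^14) is larger over some algebraically closed field of characteristic 11, with q a
primitive cube root of unity, than over the complex numbers with q = exp(2 pi i / 3). -/
theorem result :
    ∃ (F : Type) (_ : Field F) (q : F), IsAlgClosed F ∧ CharP F 11 ∧ 1 + q + q ^ 2 = 0 ∧
      spechtLength (Complex.exp (2 * Real.pi * Complex.I / 3)) 30 kappa <
        spechtLength q 30 kappa :=
  main_length

end Pool.Agent.Results.MP_36c429_al.JamesFailsE3
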